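import Mathlib

set_option autoImplicit false

/-!
Congruence of Gram matrices over arbitrary finite index types, hyperbolic planes, diagonalisation,
transport of skew-adjoint matrices (helper file for project OP of helper932, helper499).
-/

open Matrix Polynomial

namespace Pool.Agent.R499.OP

section cg
variable {F : Type} [Field F]

/-- congruence of the forms with Gram matrices `B` and `B'` -/
def Cg {n m : Type} [Fintype n] [DecidableEq n] [Fintype m] [DecidableEq m]
    (B : Matrix n n F) (B' : Matrix m m F) : Prop :=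
  ∃ (C : Matrix n m F) (D : Matrix m n F), C * D = 1 ∧ D * C = 1 ∧ Cᵀ * B * C = B'

variable {n m k l : Type} [Fintype n] [DecidableEq n] [Fintype m] [DecidableEq m]
  [Fintype k] [DecidableEq k] [Fintype l] [DecidableEq l]

theorem Cg.refl (B : Matrix n n F) : Cg B B := ⟨1, 1, by simp, by simp, by simp⟩

theorem Cg.of_eq {B B' : Matrix n n F} (h : B = B') : Cg B B' := h ▸ Cg.refl B

theorem Cg.trans {A : Matrix n n F} {B : Matrix m m F} {C : Matrix k k F} (h : Cg A B)
    (h' : Cg B C) : Cg A C := by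
  obtain ⟨P, Q, h1, h2, h3⟩ := h
  obtain ⟨P', Q', h1', h2', h3'⟩ := h'
  refine ⟨P * P', Q' * Q, ?_, ?_, ?_⟩
  · calc P * P' * (Q' * Q) = P * (P' * Q') * Q := by simp only [Matrix.mul_assoc]
      _ = 1 := by rw [h1', Matrix.mul_one, h1]
  · calc Q' * Q * (P * P') = Q' * (Q * P) * P' := by simp only [Matrix.mul_assoc]
      _ = 1 := by rw [h2, Matrix.mul_one, h2']
  · rw [transpose_mul]
    calc P'ᵀ * Pᵀ * A * (P * P') = P'ᵀ * (Pᵀ * A * P) * P' := by simp only [Matrix.mul_assoc]
      _ = C := by rw [h3, h3']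

theorem Cg.symm {A : Matrix n n F} {B : Matrix m m F} (h : Cg A B) : Cg B A := by
  obtain ⟨P, Q, h1, h2, h3⟩ := h
  refine ⟨Q, P, h2, h1, ?_⟩
  have hT : Qᵀ * Pᵀ = 1 := by rw [← transpose_mul, h1, transpose_one]
  calc Qᵀ * B * Q = (Qᵀ * Pᵀ) * A * (P * Q) := by rw [← h3]; simp only [Matrix.mul_assoc]
    _ = A := by rw [hT, h1]; simp

theorem Cg.reindex (e : m ≃ n) (B : Matrix n n F) : Cg B (B.submatrix e e) := by
  refine ⟨(1 : Matrix n n F).submatrix id e, (1 : Matrix n n F).submatrix e id, ?_, ?_, ?_⟩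
  · rw [submatrix_mul_equiv]; simp
  · have := submatrix_mul_equiv (1 : Matrix n n F) (1 : Matrix n n F) e (Equiv.refl n) e
    simp only [Equiv.coe_refl] at this
    rw [this]
    simp
  · ext i j
    simp [Matrix.mul_apply, Matrix.one_apply]

theorem Cg.of_reindex (e : m ≃ n) {B : Matrix n n F} {B' : Matrix m m F}
    (h : B.submatrix e e = B') : Cg B B' := h ▸ Cg.reindex e B

theorem Cg.blocks {A : Matrix n n F} {B : Matrix m m F} {C : Matrix k k F} {D : Matrix l l F}
    (h : Cg A B) (h' : Cg C D) : Cg (fromBlocks A 0 0 C) (fromBlocks B 0 0 D) := by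
  obtain ⟨P, Q, h1, h2, h3⟩ := h
  obtain ⟨P', Q', h1', h2', h3'⟩ := h'
  refine ⟨fromBlocks P 0 0 P', fromBlocks Q 0 0 Q', ?_, ?_, ?_⟩
  · rw [fromBlocks_multiply]; simp [h1, h1']
  · rw [fromBlocks_multiply]; simp [h2, h2']
  · rw [fromBlocks_transpose, fromBlocks_multiply, fromBlocks_multiply]
    simp [h3, h3']

theorem Cg.scale (s : n → F) (hs : ∀ i, s i ≠ 0) (B : Matrix n n F) :
    Cg B (diagonal s * B * diagonal s) := by
  refine ⟨diagonal s, diagonal fun i => (s i)⁻¹, ?_, ?_, ?_⟩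
  · rw [diagonal_mul_diagonal, ← diagonal_one]
    congr 1; funext i; exact mul_inv_cancel₀ (hs i)
  · rw [diagonal_mul_diagonal, ← diagonal_one]
    congr 1; funext i; exact inv_mul_cancel₀ (hs i)
  · rw [diagonal_transpose]

theorem Cg.scale_diag (s : n → F) (hs : ∀ i, s i ≠ 0) (d : n → F) :
    Cg (diagonal d) (diagonal fun i => s i ^ 2 * d i) := by
  refine (Cg.scale s hs (diagonal d)).trans (Cg.of_eq ?_)
  rw [diagonal_mul_diagonal, diagonal_mul_diagonal]
  congr 1; funext i; ring

theorem Cg.comm (A : Matrix n n F) (B : Matrix m m F) :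
    Cg (fromBlocks A 0 0 B) (fromBlocks B 0 0 A) :=
  Cg.of_reindex (Equiv.sumComm m n) (by ext (i | i) (j | j) <;> simp)

theorem Cg.assoc (A : Matrix n n F) (B : Matrix m m F) (C : Matrix k k F) :
    Cg (fromBlocks (fromBlocks A 0 0 B) 0 0 C) (fromBlocks A 0 0 (fromBlocks B 0 0 C)) :=
  Cg.of_reindex (Equiv.sumAssoc n m k).symm (by
    ext (i | i | i) (j | j | j) <;> simp)

/-- sum of four forms, middle exchange -/
theorem Cg.mid (A : Matrix n n F) (B : Matrix m m F) (C : Matrix k k F) (D : Matrix l l F) :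
    Cg (fromBlocks (fromBlocks A 0 0 B) 0 0 (fromBlocks C 0 0 D))
      (fromBlocks (fromBlocks A 0 0 C) 0 0 (fromBlocks B 0 0 D)) :=
  Cg.of_reindex (Equiv.sumSumSumComm n k m l) (by
    ext ((i | i) | i | i) ((j | j) | j | j) <;> simp)

/-- the sum of hyperbolic planes -/
def Hy (F a : Type) [Field F] [DecidableEq a] : Matrix (a ⊕ a) (a ⊕ a) F := fromBlocks 0 1 1 0

theorem Cg.hy_reindex (e : m ≃ n) : Cg (Hy F n) (Hy F m) :=
  Cg.of_reindex (Equiv.sumCongr e e) (by
    ext (i | i) (j | j) <;> simp [Hy, Matrix.one_apply])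

theorem Cg.hy_sum : Cg (fromBlocks (Hy F n) 0 0 (Hy F m)) (Hy F (n ⊕ m)) :=
  Cg.of_reindex (Equiv.sumSumSumComm n m n m) (by
    ext ((i | i) | i | i) ((j | j) | j | j) <;> simp [Hy, Matrix.one_apply])

theorem Cg.hy_empty [IsEmpty n] (B : Matrix m m F) : Cg B (fromBlocks (Hy F n) 0 0 B) :=
  Cg.of_reindex ((Equiv.emptySum (n ⊕ n) m)) (by
    ext (i | i) (j | j)
    · exact isEmptyElim i
    · exact isEmptyElim i
    · exact isEmptyElim j
    · simp)

/-- cardinalities agree -/
theorem Cg.card {A : Matrix n n F} {B : Matrix m m F} (h : Cg A B) :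
    Fintype.card n = Fintype.card m := by
  obtain ⟨P, Q, h1, h2, h3⟩ := h
  have := (Matrix.toLin'OfInv h1 h2).finrank_eq
  simpa using this

theorem Cg.det {A : Matrix n n F} {B : Matrix m m F} (h : Cg A B) :
    ∃ u : F, u ≠ 0 ∧ B.det = u ^ 2 * A.det := by
  have hc := h.card
  obtain ⟨P, Q, h1, h2, h3⟩ := h
  let e : n ≃ m := Fintype.equivOfCardEq hc
  let P' : Matrix n n F := P.submatrix id e
  let Q' : Matrix n n F := Q.submatrix e id
  have hPQ : P' * Q' = 1 := by
    simp only [P', Q']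
    rw [submatrix_mul_equiv, h1]; simp
  have hd : P'.det ≠ 0 := by
    intro h0
    have := congrArg Matrix.det hPQ
    rw [det_mul, h0, det_one] at this
    simp at this
  refine ⟨P'.det, hd, ?_⟩
  have hB : B.submatrix e e = P'ᵀ * A * P' := by
    rw [← h3]
    ext i j
    simp [P', Matrix.mul_apply]
  rw [← det_submatrix_equiv_self e B, hB, det_mul, det_mul, det_transpose]
  ring

theorem Cg.transpose {A : Matrix n n F} {B : Matrix m m F} (h : Cg A B) (hA : Aᵀ = A) :
    Bᵀ = B := by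
  obtain ⟨P, Q, h1, h2, h3⟩ := h
  rw [← h3]
  simp [Matrix.mul_assoc, hA]

/-- the hyperbolic plane `⟨s, -s⟩` -/
theorem Cg.plane (h2 : (2 : F) ≠ 0) (s : F) (hs : s ≠ 0) :
    Cg (diagonal ![s, -s]) (Hy F (Fin 1)) := by
  have hH : Cg (Hy F (Fin 1)) (!![0, 1; 1, 0] : Matrix (Fin 2) (Fin 2) F) := by
    refine Cg.of_reindex (finSumFinEquiv (m := 1) (n := 1)).symm ?_
    ext i j
    fin_cases i <;> fin_cases j <;> rfl
  refine Cg.trans ?_ hH.symm
  refine ⟨!![1, (2 * s)⁻¹; 1, -(2 * s)⁻¹], !![2⁻¹, 2⁻¹; s, -s], ?_, ?_, ?_⟩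
  · ext i j
    fin_cases i <;> fin_cases j <;> simp [Matrix.mul_apply, Fin.sum_univ_two] <;> field_simp <;>
      ring
  · ext i j
    fin_cases i <;> fin_cases j <;> simp [Matrix.mul_apply, Fin.sum_univ_two] <;> field_simp <;>
      ring
  · ext i j
    fin_cases i <;> fin_cases j <;>
      simp [Matrix.mul_apply, Fin.sum_univ_two] <;> field_simp <;>
      ring

theorem Cg.binary {a b c x y : F} (hc : c ≠ 0) (h : a * x ^ 2 + b * y ^ 2 = c) :
    Cg (diagonal ![a, b]) (diagonal ![c, a * b * c]) := by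
  refine ⟨!![x, -b * y; y, a * x], !![c⁻¹ * (a * x), c⁻¹ * (b * y); -(c⁻¹ * y), c⁻¹ * x],
    ?_, ?_, ?_⟩
  · ext i j
    fin_cases i <;> fin_cases j <;> simp [Matrix.mul_apply, Fin.sum_univ_two] <;> field_simp <;>
      first | linear_combination h | ring1 | (ring_nf; done)
  · ext i j
    fin_cases i <;> fin_cases j <;> simp [Matrix.mul_apply, Fin.sum_univ_two] <;> field_simp <;>
      first | linear_combination h | ring1 | (ring_nf; done)
  · ext i j
    fin_cases i <;> fin_cases j <;> simp [Matrix.mul_apply, Fin.sum_univ_two]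
    · linear_combination h
    · ring
    · ring
    · linear_combination (a * b) * h

theorem Cg.diagonalize (h2 : (2 : F) ≠ 0) (B : Matrix n n F) (hB : Bᵀ = B) :
    ∃ d : n → F, Cg B (diagonal d) := by
  let _ : Invertible (2 : F) := invertibleOfNonzero h2
  let β : LinearMap.BilinForm F (n → F) := Matrix.toBilin' B
  have hβ : LinearMap.IsSymm β := by
    rw [LinearMap.isSymm_def]
    intro x y
    simp only [β, Matrix.toBilin'_apply', RingHom.id_apply]
    rw [dotProduct_mulVec, ← mulVec_transpose, hB, dotProduct_comm]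
  obtain ⟨v, hv⟩ := LinearMap.BilinForm.exists_orthogonal_basis hβ
  have hcard : Module.finrank F (n → F) = Fintype.card n := by simp
  let e : n ≃ Fin (Module.finrank F (n → F)) := (Fintype.equivFin n).trans (finCongr hcard.symm)
  let w := v.reindex e.symm
  refine ⟨fun i => β (w i) (w i), (Pi.basisFun F n).toMatrix w, w.toMatrix (Pi.basisFun F n),
    Module.Basis.toMatrix_mul_toMatrix_flip _ _, Module.Basis.toMatrix_mul_toMatrix_flip _ _, ?_⟩
  ext i j
  have key : (((Pi.basisFun F n).toMatrix w)ᵀ * B * (Pi.basisFun F n).toMatrix w) i j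
      = β (w i) (w j) := by
    simp only [β, Matrix.toBilin'_apply', Matrix.mul_apply, dotProduct, mulVec,
      Matrix.transpose_apply, Module.Basis.toMatrix_apply, Pi.basisFun_repr, Finset.sum_mul,
      Finset.mul_sum]
    rw [Finset.sum_comm]
    refine Finset.sum_congr rfl fun x _ => Finset.sum_congr rfl fun y _ => by ring
  rw [key]
  by_cases hij : i = j
  · subst hij; simp
  · rw [diagonal_apply_ne _ hij]
    have := hv (i := e i) (j := e j) (by simpa using hij)
    simpa [w, Function.onFun] using this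

end cg

end Pool.Agent.R499.OP
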