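import Pool.Agent.R499.OP.Cg

set_option autoImplicit false

/-!
Skew-adjoint matrices with given characteristic polynomial: hyperbolic blocks, rotations and the
cyclic block with characteristic polynomial `X ^ (2n+2) - c`
(helper file for project OP of helper932, helper499).
-/

open Matrix Polynomial

namespace Pool.Agent.R499.OP

section skew
variable {F : Type} [Field F]

/-- `T` is skew-adjoint for `B` -/
def Sk {n : Type} [Fintype n] (B T : Matrix n n F) : Prop := (B * T)ᵀ = -(B * T)

variable {n m k l : Type} [Fintype n] [DecidableEq n] [Fintype m] [DecidableEq m]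

/-- transport of skew-adjoint matrices -/
theorem Cg.sk {B : Matrix n n F} {B' : Matrix m m F} (h : Cg B B') {T' : Matrix m m F}
    (hT : Sk B' T') : ∃ T : Matrix n n F, Sk B T ∧ T.charpoly = T'.charpoly := by
  have hc := h.card
  obtain ⟨C, D, h1, h2, h3⟩ := h
  have hDC : Dᵀ * Cᵀ = 1 := by rw [← transpose_mul, h1, transpose_one]
  have hBC : B * C = Dᵀ * B' := by
    rw [← h3, ← Matrix.mul_assoc, ← Matrix.mul_assoc, hDC, Matrix.one_mul]
  refine ⟨C * T' * D, ?_, ?_⟩
  · unfold Sk at *
    have e : B * (C * T' * D) = Dᵀ * (B' * T') * D := by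
      rw [Matrix.mul_assoc C, ← Matrix.mul_assoc B, hBC]
      simp only [Matrix.mul_assoc]
    rw [e, transpose_mul, transpose_mul, transpose_transpose, hT]
    simp [Matrix.mul_assoc]
  · rw [Matrix.mul_assoc]
    rw [charpoly_mul_comm_of_le C (T' * D) (by rw [hc]), hc, Matrix.mul_assoc, h2]
    simp

theorem Sk.blocks {B₁ T₁ : Matrix n n F} {B₂ T₂ : Matrix m m F} (h₁ : Sk B₁ T₁) (h₂ : Sk B₂ T₂) :
    Sk (fromBlocks B₁ 0 0 B₂) (fromBlocks T₁ 0 0 T₂) := by
  unfold Sk at *
  rw [fromBlocks_multiply, fromBlocks_transpose, fromBlocks_neg]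
  simp [h₁, h₂]

theorem charpoly_blocks (T₁ : Matrix n n F) (T₂ : Matrix m m F) :
    (fromBlocks T₁ 0 0 T₂).charpoly = T₁.charpoly * T₂.charpoly := by
  rw [charpoly_fromBlocks_zero₁₂]

/-- hyperbolic block -/
theorem sk_hy (A : Matrix n n F) : Sk (Hy F n) (fromBlocks A 0 0 (-Aᵀ)) ∧
    (fromBlocks A 0 0 (-Aᵀ)).charpoly = A.charpoly * (-A).charpoly := by
  constructor
  · unfold Sk Hy
    rw [fromBlocks_multiply, fromBlocks_transpose, fromBlocks_neg]
    simp
  · rw [charpoly_blocks, ← transpose_neg, charpoly_transpose]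

/-- rotation -/
theorem sk_rot (p q t : F) : ∃ T : Matrix (Fin 2) (Fin 2) F, Sk (diagonal ![p, q]) T ∧
    T.charpoly = X ^ 2 - C (-(p * q * t ^ 2)) := by
  refine ⟨!![0, -(q * t); p * t, 0], ?_, ?_⟩
  · unfold Sk
    ext i j
    fin_cases i <;> fin_cases j <;> simp [Matrix.mul_apply, Fin.sum_univ_two] <;> ring
  · rw [charpoly_fin_two, trace_fin_two, det_fin_two]
    simp
    ring

/-- the companion matrix of `X ^ N - c` -/
theorem comp_charpoly (N : ℕ) (hN : 0 < N) (c : F) :
    (Matrix.of fun i j : Fin N => if (j : ℕ) + 1 = N then (if (i : ℕ) = 0 then c else 0)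
      else if (i : ℕ) = j + 1 then (1 : F) else 0).charpoly = X ^ N - C c := by
  have hp : (X ^ N - C c : F[X]).Monic := monic_X_pow_sub_C c hN.ne'
  have hdeg : (X ^ N - C c : F[X]).natDegree = N := natDegree_X_pow_sub_C
  let pb := AdjoinRoot.powerBasis' hp
  have hdim : pb.dim = N := by
    rw [AdjoinRoot.powerBasis'_dim hp, hdeg]
  have hmin : minpoly F pb.gen = X ^ N - C c := by
    show minpoly F (AdjoinRoot.powerBasis' hp).gen = _
    rw [AdjoinRoot.powerBasis'_gen, AdjoinRoot.minpoly_root hp.ne_zero, hp.leadingCoeff, inv_one,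
      C_1, mul_one]
  have h1 : (Algebra.leftMulMatrix pb.basis pb.gen).charpoly = X ^ N - C c := by
    rw [charpoly_leftMulMatrix, hmin]
  rw [PowerBasis.leftMulMatrix, PowerBasis.minpolyGen_eq, hmin,
    ← charpoly_reindex (finCongr hdim)] at h1
  rw [← h1]
  congr 1
  ext i j
  simp only [reindex_apply, submatrix_apply, of_apply, coeff_sub, coeff_X_pow, coeff_C]
  have hi := i.2
  have e1 : (((finCongr hdim).symm i : Fin pb.dim) : ℕ) = i := rfl
  have e2 : (((finCongr hdim).symm j : Fin pb.dim) : ℕ) = j := rfl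
  rw [e1, e2, hdim]
  have hiN : (i : ℕ) ≠ N := by omega
  by_cases hj : (j : ℕ) + 1 = N
  · rw [if_pos hj, if_pos hj, if_neg hiN, zero_sub, neg_neg]
  · rw [if_neg hj, if_neg hj]

/-- the cyclic block -/
theorem sk_cyc (n : ℕ) (p q t : F) (hp : p ≠ 0) (hq : q ≠ 0) (ht : t ≠ 0) :
    ∃ T : Matrix ((Fin n ⊕ Fin n) ⊕ Fin 2) ((Fin n ⊕ Fin n) ⊕ Fin 2) F,
      Sk (fromBlocks (Hy F (Fin n)) 0 0 (diagonal ![p, q])) T ∧
      T.charpoly = X ^ (2 * n + 2) - C ((-1) ^ (n + 1) * (p * q * t ^ 2)) := by
  obtain ⟨c, hc⟩ : ∃ c, c = (-1) ^ (n + 1) * (p * q * t ^ 2) := ⟨_, rfl⟩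
  have hc0 : c ≠ 0 := by
    rw [hc]
    exact mul_ne_zero (pow_ne_zero _ (by simp)) (mul_ne_zero (mul_ne_zero hp hq) (pow_ne_zero _ ht))
  set N : ℕ := 2 * n + 2 with hN
  -- the Gram matrix
  let G : Matrix (Fin N) (Fin N) F := Matrix.of fun i j =>
    if (i : ℕ) + j = 0 then p else if (i : ℕ) + j = N then p * (-1) ^ (j : ℕ) * c else 0
  let T₀ : Matrix (Fin N) (Fin N) F := Matrix.of fun i j : Fin N =>
    if (j : ℕ) + 1 = N then (if (i : ℕ) = 0 then c else 0)
      else if (i : ℕ) = j + 1 then (1 : F) else 0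
  have hGT : G * T₀ = Matrix.of fun i j : Fin N =>
      if (i : ℕ) + j + 1 = N then -(p * (-1) ^ (j : ℕ) * c) else 0 := by
    ext i j
    rw [Matrix.mul_apply]
    by_cases hj : (j : ℕ) + 1 = N
    · rw [Finset.sum_eq_single (⟨0, by omega⟩ : Fin N)]
      · simp only [G, T₀, of_apply, hj, if_true]
        have hi := i.2
        by_cases hi0 : (i : ℕ) = 0
        · have : (i : ℕ) + 0 = 0 := by omega
          rw [if_pos this, if_pos (by omega)]
          have hodd : Odd (j : ℕ) := by
            rw [Nat.odd_iff]; omega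
          rw [hodd.neg_one_pow]; ring
        · rw [if_neg (by omega), if_neg (by omega), if_neg (by omega)]; simp
      · intro b _ hb
        have : (b : ℕ) ≠ 0 := fun h => hb (Fin.ext h)
        simp only [T₀, of_apply, hj, if_true, if_neg this, mul_zero]
      · intro h; exact absurd (Finset.mem_univ _) h
    · have hjlt : (j : ℕ) + 1 < N := by have := j.2; omega
      rw [Finset.sum_eq_single (⟨j + 1, hjlt⟩ : Fin N)]
      · simp only [G, T₀, of_apply, if_neg hj, if_true, mul_one]
        rw [if_neg (by omega)]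
        by_cases hij : (i : ℕ) + j + 1 = N
        · rw [if_pos (by omega), if_pos hij, pow_succ]; ring
        · rw [if_neg (by omega), if_neg hij]
      · intro b _ hb
        have : (b : ℕ) ≠ j + 1 := fun h => hb (Fin.ext h)
        simp only [T₀, of_apply, if_neg hj, if_neg this, mul_zero]
      · intro h; exact absurd (Finset.mem_univ _) h
  have hsk : Sk G T₀ := by
    unfold Sk
    rw [hGT]
    ext i j
    show (if (j : ℕ) + i + 1 = N then -(p * (-1) ^ (i : ℕ) * c) else 0)
      = -(if (i : ℕ) + j + 1 = N then -(p * (-1) ^ (j : ℕ) * c) else 0)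
    by_cases hij : (i : ℕ) + j + 1 = N
    · rw [if_pos (by omega), if_pos hij]
      have : (-1 : F) ^ (i : ℕ) = -(-1) ^ (j : ℕ) := by
        rcases Nat.even_or_odd (i : ℕ) with h | h
        · have h' : Odd (j : ℕ) := by
            rw [Nat.odd_iff]; rw [Nat.even_iff] at h; omega
          rw [h.neg_one_pow, h'.neg_one_pow]; ring
        · have h' : Even (j : ℕ) := by
            rw [Nat.even_iff]; rw [Nat.odd_iff] at h; omega
          rw [h.neg_one_pow, h'.neg_one_pow]
      rw [this]; ring
    · rw [if_neg (by omega), if_neg hij]; simp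
  have hch : T₀.charpoly = X ^ N - C c := comp_charpoly N (by omega) c
  -- the congruence
  let f : (Fin n ⊕ Fin n) ⊕ Fin 2 → Fin N := Sum.elim
    (Sum.elim (fun i => ⟨i + 1, by omega⟩) (fun i => ⟨2 * n + 1 - i, by omega⟩))
    ![⟨0, by omega⟩, ⟨n + 1, by omega⟩]
  have hf1 : ∀ i, (f (Sum.inl (Sum.inl i)) : ℕ) = i + 1 := fun i => rfl
  have hf2 : ∀ i, (f (Sum.inl (Sum.inr i)) : ℕ) = 2 * n + 1 - i := fun i => rfl
  have hf3 : (f (Sum.inr 0) : ℕ) = 0 := rfl
  have hf4 : (f (Sum.inr 1) : ℕ) = n + 1 := rfl
  have hfb : Function.Bijective f := by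
    rw [Fintype.bijective_iff_injective_and_card]
    refine ⟨?_, by simp [hN]; omega⟩
    intro x y hxy
    have hxy' : (f x : ℕ) = f y := congrArg Fin.val hxy
    rcases x with (i | i) | i <;> rcases y with (j | j) | j
    · rw [hf1, hf1] at hxy'
      have : i = j := Fin.ext (by omega)
      rw [this]
    · rw [hf1, hf2] at hxy'; exfalso; have := i.2; have := j.2; omega
    · exfalso; fin_cases j <;> simp [hf1, hf3, hf4] at hxy' <;> have := i.2 <;> omega
    · rw [hf1, hf2] at hxy'; exfalso; have := i.2; have := j.2; omega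
    · rw [hf2, hf2] at hxy'
      have : i = j := Fin.ext (by have := i.2; have := j.2; omega)
      rw [this]
    · exfalso; have := i.2
      fin_cases j
      · have h := hf3
        simp only [Fin.zero_eta] at hxy'
        rw [hf2, h] at hxy'; omega
      · have h := hf4
        simp only [Fin.mk_one] at hxy'
        rw [hf2, h] at hxy'; omega
    · exfalso; fin_cases i <;> simp [hf1, hf3, hf4] at hxy' <;> have := j.2 <;> omega
    · exfalso; have := j.2
      fin_cases i
      · have h := hf3
        simp only [Fin.zero_eta] at hxy'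
        rw [hf2, h] at hxy'; omega
      · have h := hf4
        simp only [Fin.mk_one] at hxy'
        rw [hf2, h] at hxy'; omega
    · fin_cases i <;> fin_cases j <;> simp [hf3, hf4] at hxy' ⊢
  let e := Equiv.ofBijective f hfb
  let s : (Fin n ⊕ Fin n) ⊕ Fin 2 → F := Sum.elim
    (Sum.elim (fun i => (-(p * (-1) ^ (i : ℕ) * c))⁻¹) (fun _ => 1)) ![1, (p * t)⁻¹]
  have hne : ∀ i : ℕ, -(p * (-1) ^ i * c) ≠ 0 := fun i =>
    neg_ne_zero.mpr (mul_ne_zero (mul_ne_zero hp (pow_ne_zero _ (by simp))) hc0)
  have hs : ∀ x, s x ≠ 0 := by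
    rintro ((i | i) | i)
    · exact inv_ne_zero (hne _)
    · exact one_ne_zero
    · fin_cases i
      · exact one_ne_zero
      · exact inv_ne_zero (mul_ne_zero hp ht)
  have hcg : Cg G (fromBlocks (Hy F (Fin n)) 0 0 (diagonal ![p, q])) := by
    refine (Cg.reindex e G).trans ((Cg.scale s hs _).trans (Cg.of_eq ?_))
    have hent : ∀ x y, (diagonal s * G.submatrix e e * diagonal s) x y
        = s x * G (f x) (f y) * s y := by
      intro x y
      rw [mul_diagonal, diagonal_mul]
      rfl
    ext x y
    rw [hent]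
    rcases x with (i | i) | i <;> rcases y with (j | j) | j
    · have := i.2; have := j.2
      have : G (f (Sum.inl (Sum.inl i))) (f (Sum.inl (Sum.inl j))) = 0 := by
        simp only [G, of_apply, hf1]
        rw [if_neg (by omega), if_neg (by omega)]
      rw [this]; simp [Hy]
    · have := i.2; have := j.2
      simp only [G, of_apply, hf1, hf2]
      rw [if_neg (by omega)]
      by_cases hij : i = j
      · subst hij
        rw [if_pos (by omega)]
        have e1 : (-1 : F) ^ (2 * n + 1 - (i : ℕ)) = -(-1) ^ (i : ℕ) := by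
          have : (-1 : F) ^ (2 * n + 1 - (i : ℕ)) * (-1) ^ (i : ℕ) = -1 := by
            rw [← pow_add, show 2 * n + 1 - (i : ℕ) + i = 2 * n + 1 by omega, pow_succ, pow_mul]
            simp
          have h2 : (-1 : F) ^ (i : ℕ) * (-1) ^ (i : ℕ) = 1 := by
            rw [← mul_pow]; simp
          linear_combination (-1 : F) ^ (i : ℕ) * this - (-1 : F) ^ (2 * n + 1 - (i : ℕ)) * h2
        rw [e1]
        have h3 := hne i
        simp only [s, Sum.elim_inl, Sum.elim_inr, Hy, fromBlocks_apply₁₁, fromBlocks_apply₁₂,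
          one_apply_eq, mul_one]
        have : p * -(-1) ^ (i : ℕ) * c = -(p * (-1) ^ (i : ℕ) * c) := by ring
        rw [this, inv_mul_cancel₀ h3]
      · have hij' : (i : ℕ) ≠ j := fun h => hij (Fin.ext h)
        rw [if_neg (by omega)]
        simp [Hy, Matrix.one_apply, hij]
    · have := i.2
      have : G (f (Sum.inl (Sum.inl i))) (f (Sum.inr j)) = 0 := by
        simp only [G, of_apply, hf1]
        fin_cases j
        · have h := hf3
          simp only [Fin.zero_eta, h]
          rw [if_neg (by omega), if_neg (by omega)]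
        · have h := hf4
          simp only [Fin.mk_one, h]
          rw [if_neg (by omega), if_neg (by omega)]
      rw [this]; simp
    · have := i.2; have := j.2
      simp only [G, of_apply, hf1, hf2]
      rw [if_neg (by omega)]
      by_cases hij : i = j
      · subst hij
        rw [if_pos (by omega)]
        have h3 := hne i
        simp only [s, Sum.elim_inl, Sum.elim_inr, Hy, fromBlocks_apply₁₁, fromBlocks_apply₂₁,
          one_apply_eq, one_mul]
        have : p * (-1) ^ ((i : ℕ) + 1) * c = -(p * (-1) ^ (i : ℕ) * c) := by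
          rw [pow_succ]; ring
        rw [this, mul_inv_cancel₀ h3]
      · have hij' : (i : ℕ) ≠ j := fun h => hij (Fin.ext h)
        rw [if_neg (by omega)]
        simp [Hy, Matrix.one_apply, hij]
    · have := i.2; have := j.2
      have : G (f (Sum.inl (Sum.inr i))) (f (Sum.inl (Sum.inr j))) = 0 := by
        simp only [G, of_apply, hf2]
        rw [if_neg (by omega), if_neg (by omega)]
      rw [this]; simp [Hy]
    · have := i.2
      have : G (f (Sum.inl (Sum.inr i))) (f (Sum.inr j)) = 0 := by
        simp only [G, of_apply, hf2]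
        fin_cases j
        · have h := hf3
          simp only [Fin.zero_eta, h]
          rw [if_neg (by omega), if_neg (by omega)]
        · have h := hf4
          simp only [Fin.mk_one, h]
          rw [if_neg (by omega), if_neg (by omega)]
      rw [this]; simp
    · have := j.2
      have : G (f (Sum.inr i)) (f (Sum.inl (Sum.inl j))) = 0 := by
        simp only [G, of_apply, hf1]
        fin_cases i
        · have h := hf3
          simp only [Fin.zero_eta, h]
          rw [if_neg (by omega), if_neg (by omega)]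
        · have h := hf4
          simp only [Fin.mk_one, h]
          rw [if_neg (by omega), if_neg (by omega)]
      rw [this]; simp
    · have := j.2
      have : G (f (Sum.inr i)) (f (Sum.inl (Sum.inr j))) = 0 := by
        simp only [G, of_apply, hf2]
        fin_cases i
        · have h := hf3
          simp only [Fin.zero_eta, h]
          rw [if_neg (by omega), if_neg (by omega)]
        · have h := hf4
          simp only [Fin.mk_one, h]
          rw [if_neg (by omega), if_neg (by omega)]
      rw [this]; simp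
    · have hsgn : (-1 : F) ^ (n + 1) * (-1) ^ (n + 1) = 1 := by
        rw [← mul_pow]; simp
      fin_cases i <;> fin_cases j
      · simp only [Fin.zero_eta, G, of_apply, hf3]
        simp [s]
      · simp only [Fin.zero_eta, Fin.mk_one, G, of_apply, hf3, hf4]
        rw [if_neg (by omega), if_neg (by omega)]
        simp
      · simp only [Fin.zero_eta, Fin.mk_one, G, of_apply, hf3, hf4]
        rw [if_neg (by omega), if_neg (by omega)]
        simp
      · simp only [Fin.mk_one, G, of_apply, hf4]
        rw [if_neg (by omega), if_pos (by omega), hc]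
        have : p * (-1) ^ (n + 1) * ((-1) ^ (n + 1) * (p * q * t ^ 2)) = p ^ 2 * q * t ^ 2 := by
          linear_combination (p ^ 2 * q * t ^ 2) * hsgn
        rw [this]
        simp [s]
        field_simp
  rw [← hc]
  obtain ⟨T, hT1, hT2⟩ := hcg.symm.sk hsk
  exact ⟨T, hT1, hT2.trans hch⟩

end skew

end Pool.Agent.R499.OP
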