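import Pool.Agent.R932.OP.FormD

set_option autoImplicit false

/-!
The tasks FORM1 and FORM2 (helper499, for project OP of helper932).
-/

open Matrix Polynomial
open Pool.Agent.Y142.ZO (Skew)
open Pool.Agent.R932.OP

namespace Pool.Agent.R499.OP

theorem sk_zero {F : Type} [Field F] (B : Matrix (Fin 1) (Fin 1) F) :
    Sk B 0 ∧ (0 : Matrix (Fin 1) (Fin 1) F).charpoly = X := by
  constructor
  · unfold Sk; simp
  · rw [charpoly_zero]; simp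

theorem form1 : Pool.Agent.Y142.ZI.S_FORM1 := by
  intro ℓ _ hℓ m B hB hd A
  obtain ⟨C', D', d, h1, h2, hd', o1, h3⟩ := s_wt ℓ hℓ m B hB hd
  have hcg : Cg B (fromBlocks (Hy ℚ_[ℓ] (Fin m)) 0 0 (diagonal d)) := ⟨C', D', h1, h2, h3⟩
  have hcg2 := hcg.trans ((Cg.refl _).blocks (split3 d))
  obtain ⟨w₁, hw₁, hn₁⟩ := norm_odd (d 0 * d 1) (mul_ne_zero (hd' 0) (hd' 1)) o1
  obtain ⟨T₁, hT₁, hch₁⟩ := sk_rot (d 0) (d 1) w₁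
  obtain ⟨hA, hchA⟩ := sk_hy A
  obtain ⟨h0, hch0⟩ := sk_zero (diagonal ![d 2])
  obtain ⟨T, hT, hch⟩ := hcg2.sk (hA.blocks (hT₁.blocks h0))
  refine ⟨T, -(d 0 * d 1 * w₁ ^ 2), hT, by rw [norm_neg, hn₁], ?_⟩
  rw [hch, charpoly_blocks, hchA, charpoly_blocks, hch₁, hch0]
  ring

theorem form2 : Pool.Agent.Y142.ZI.S_FORM2 := by
  intro ℓ _ hℓ m B hB hd
  obtain ⟨C', D', d, h1, h2, hd', o1, h3⟩ := s_wt ℓ hℓ m B hB hd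
  have hcg : Cg B (fromBlocks (Hy ℚ_[ℓ] (Fin m)) 0 0 (diagonal d)) := ⟨C', D', h1, h2, h3⟩
  have hcg2 := (hcg.trans ((Cg.refl _).blocks (split3 d))).trans (Cg.assoc _ _ _).symm
  obtain ⟨w₁, hw₁, hn₁⟩ := norm_odd (d 0 * d 1) (mul_ne_zero (hd' 0) (hd' 1)) o1
  obtain ⟨T₁, hT₁, hch₁⟩ := sk_cyc m (d 0) (d 1) w₁ (hd' 0) (hd' 1) hw₁
  obtain ⟨h0, hch0⟩ := sk_zero (diagonal ![d 2])
  obtain ⟨T, hT, hch⟩ := hcg2.sk (hT₁.blocks h0)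
  refine ⟨T, (-1) ^ (m + 1) * (d 0 * d 1 * w₁ ^ 2), hT, by rw [norm_sign, hn₁], ?_⟩
  rw [hch, charpoly_blocks, hch₁, hch0]
  ring

end Pool.Agent.R499.OP
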