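import Pool.Agent.R499.OP.Witt
import Pool.Agent.Y142.ZD.Stm

set_option autoImplicit false

/-!
The tasks WITT, TERN, WT and WE (helper file for project OP of helper932, helper499).
-/

open Matrix Polynomial

namespace Pool.Agent.R499.OP

variable {ℓ : ℕ} [Fact ℓ.Prime]

theorem SP.even {a b : ℚ_[ℓ]} (ha : a ≠ 0) (hb : b ≠ 0) (h : SP a b) :
    Even (a * b).valuation := by
  unfold SP at h
  rw [Padic.valuation_mul ha hb, Int.even_add]
  rwa [Int.even_sub] at h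

theorem SP.odd {a b : ℚ_[ℓ]} (ha : a ≠ 0) (hb : b ≠ 0) (h : ¬ SP a b) :
    Odd (a * b).valuation := by
  unfold SP at h
  rw [Padic.valuation_mul ha hb, ← Int.not_even_iff_odd, Int.even_add]
  rwa [Int.even_sub] at h

theorem val_ell_mul {a : ℚ_[ℓ]} (ha : a ≠ 0) :
    ((ℓ : ℚ_[ℓ]) * a).valuation = 1 + a.valuation := by
  rw [Padic.valuation_mul ell_ne ha, Padic.valuation_p]

theorem Cg.perm {r : ℕ} (d : Fin r → ℚ_[ℓ]) (σ : Equiv.Perm (Fin r)) :
    Cg (diagonal d) (diagonal (d ∘ σ)) :=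
  Cg.of_reindex σ (submatrix_diagonal_equiv d σ)

theorem tern_case (hℓ : ℓ ≠ 2) (a b c : ℚ_[ℓ]) (ha : a ≠ 0) (hb : b ≠ 0) (hc : c ≠ 0)
    (h1 : SP a c) (h2 : SP b c) (s : ℚ_[ℓ]) (hs : s ≠ 0) :
    Cg (diagonal ![a, b, c]) (diagonal ![s, -(a * b * c), -s]) := by
  refine (Cg.tern hℓ a b c ha hb hc h1 h2).trans ?_
  refine ((Cg.plane two_ne s hs).symm.blocks (Cg.refl _)).trans ?_
  rw [fromBlocks_diagonal]
  refine Cg.of_reindex (Equiv.ofBijective (![Sum.inl 0, Sum.inr 0, Sum.inl 1] :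
      Fin 3 → Fin 2 ⊕ Fin 1) ?_) ?_
  · rw [Fintype.bijective_iff_injective_and_card]
    refine ⟨?_, rfl⟩
    decide
  · rw [submatrix_diagonal_equiv]
    congr 1
    funext i
    fin_cases i <;> simp

theorem tern_form (hℓ : ℓ ≠ 2) (d : Fin 3 → ℚ_[ℓ]) (hd : ∀ i, d i ≠ 0) :
    ∃ d' : Fin 3 → ℚ_[ℓ], (∀ i, d' i ≠ 0) ∧ Cg (diagonal d) (diagonal d') ∧
      Odd (Padic.valuation (d' 0 * d' 1)) := by
  by_cases h01 : SP (d 0) (d 1)
  · by_cases h02 : SP (d 0) (d 2)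
    · have h12 : SP (d 1) (d 2) := by
        unfold SP at *
        have : (d 1).valuation - (d 2).valuation
          = ((d 0).valuation - (d 2).valuation) - ((d 0).valuation - (d 1).valuation) := by ring
        rw [this]
        exact h02.sub h01
      set e := -(d 0 * d 1 * d 2) with he
      have hene : e ≠ 0 := neg_ne_zero.mpr (mul_ne_zero (mul_ne_zero (hd 0) (hd 1)) (hd 2))
      have hs : (ℓ : ℚ_[ℓ]) * e ≠ 0 := mul_ne_zero ell_ne hene
      have key := tern_case hℓ (d 0) (d 1) (d 2) (hd 0) (hd 1) (hd 2) h02 h12 _ hs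
      have hdd : d = ![d 0, d 1, d 2] := by funext i; fin_cases i <;> rfl
      rw [← hdd, ← he] at key
      refine ⟨_, ?_, key, ?_⟩
      · intro i
        fin_cases i
        · exact hs
        · exact hene
        · exact neg_ne_zero.mpr hs
      · show Odd ((ℓ : ℚ_[ℓ]) * e * e).valuation
        rw [mul_assoc, val_ell_mul (mul_ne_zero hene hene), Padic.valuation_mul hene hene]
        exact odd_one.add_even ⟨_, rfl⟩
    · refine ⟨d ∘ Equiv.swap 1 2, fun i => hd _, Cg.perm d _, ?_⟩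
      have : (d ∘ Equiv.swap (1 : Fin 3) 2) 0 * (d ∘ Equiv.swap (1 : Fin 3) 2) 1 = d 0 * d 2 := by
        rfl
      rw [this]
      exact SP.odd (hd 0) (hd 2) h02
  · exact ⟨d, hd, Cg.refl _, SP.odd (hd 0) (hd 1) h01⟩

theorem s_witt : Pool.Agent.Y142.ZI.S_WITT := by
  intro ℓ _ hℓ m B hB hd
  obtain ⟨d, hd', C, D, h1, h2, h3⟩ := witt_sym hℓ 3 le_rfl m (Fin (2 * m + 3)) (by simp) B hB hd
  exact ⟨C, D, d, h1, h2, hd', h3⟩

theorem s_tern : Pool.Agent.Y142.ZI.S_TERN := by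
  intro ℓ _ hℓ d hd
  obtain ⟨d', hd', ⟨C, D, h1, h2, h3⟩, ho⟩ := tern_form hℓ d hd
  exact ⟨C, D, d', h1, h2, hd', h3, ho⟩

theorem s_wt : Pool.Agent.Y142.ZI.S_WT := by
  intro ℓ _ hℓ m B hB hd
  obtain ⟨d, hd', h⟩ := witt_sym hℓ 3 le_rfl m (Fin (2 * m + 3)) (by simp) B hB hd
  obtain ⟨d', hd'', h', ho⟩ := tern_form hℓ d hd'
  obtain ⟨C, D, h1, h2, h3⟩ := h.trans ((Cg.refl _).blocks h')
  exact ⟨C, D, d', h1, h2, hd'', ho, h3⟩

theorem quad_form (hℓ : ℓ ≠ 2) (d : Fin 4 → ℚ_[ℓ]) (hd : ∀ i, d i ≠ 0)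
    (he : Even ((d 0).valuation + (d 1).valuation + (d 2).valuation + (d 3).valuation)) :
    (∃ d' : Fin 4 → ℚ_[ℓ], (∀ i, d' i ≠ 0) ∧ Cg (diagonal d) (diagonal d') ∧
      Odd (Padic.valuation (d' 0 * d' 1)) ∧ Odd (Padic.valuation (d' 2 * d' 3))) ∧
    ∃ d' : Fin 4 → ℚ_[ℓ], (∀ i, d' i ≠ 0) ∧ Cg (diagonal d) (diagonal d') ∧
      Even (Padic.valuation (d' 0 * d' 1)) ∧ Even (Padic.valuation (d' 2 * d' 3)) := by
  have hperm : ∀ σ : Equiv.Perm (Fin 4), Cg (diagonal d) (diagonal (d ∘ σ)) := fun σ =>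
    Cg.perm d σ
  have hE : ∀ i j, Even (Padic.valuation (d i * d j)) ↔
      (Even (d i).valuation ↔ Even (d j).valuation) := fun i j => by
    rw [Padic.valuation_mul (hd i) (hd j), Int.even_add]
  have hO : ∀ i j, Odd (Padic.valuation (d i * d j)) ↔
      ¬ (Even (d i).valuation ↔ Even (d j).valuation) := fun i j => by
    rw [← hE, Int.not_even_iff_odd]
  have he' : (((Even (d 0).valuation ↔ Even (d 1).valuation) ↔ Even (d 2).valuation) ↔
      Even (d 3).valuation) := by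
    rw [Int.even_add, Int.even_add, Int.even_add] at he
    exact he
  -- the three permutations
  have p021 : (Equiv.swap (1 : Fin 4) 2) 0 = 0 ∧ (Equiv.swap (1 : Fin 4) 2) 1 = 2 ∧
    (Equiv.swap (1 : Fin 4) 2) 2 = 1 ∧ (Equiv.swap (1 : Fin 4) 2) 3 = 3 := by decide
  have p031 : (Equiv.swap (1 : Fin 4) 3) 0 = 0 ∧ (Equiv.swap (1 : Fin 4) 3) 1 = 3 ∧
    (Equiv.swap (1 : Fin 4) 3) 2 = 2 ∧ (Equiv.swap (1 : Fin 4) 3) 3 = 1 := by decide
  by_cases h0 : Even (d 0).valuation <;> by_cases h1 : Even (d 1).valuation <;>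
    by_cases h2 : Even (d 2).valuation <;> by_cases h3 : Even (d 3).valuation <;>
    first
    | (exfalso; simp only [h0, h1, h2, h3] at he'; simp at he'; done)
    | (refine ⟨⟨d ∘ Equiv.swap (1 : Fin 4) 2, fun i => hd _, hperm _, ?_, ?_⟩,
        ⟨d, hd, Cg.refl _, ?_, ?_⟩⟩ <;>
        simp only [Function.comp, p021.1, p021.2.1, p021.2.2.1, p021.2.2.2, hE, hO, h0, h1, h2,
          h3] <;> simp <;> done)
    | (refine ⟨⟨d, hd, Cg.refl _, ?_, ?_⟩,
        ⟨d ∘ Equiv.swap (1 : Fin 4) 2, fun i => hd _, hperm _, ?_, ?_⟩⟩ <;>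
        simp only [Function.comp, p021.1, p021.2.1, p021.2.2.1, p021.2.2.2, hE, hO, h0, h1, h2,
          h3] <;> simp <;> done)
    | (refine ⟨⟨d, hd, Cg.refl _, ?_, ?_⟩,
        ⟨d ∘ Equiv.swap (1 : Fin 4) 3, fun i => hd _, hperm _, ?_, ?_⟩⟩ <;>
        simp only [Function.comp, p031.1, p031.2.1, p031.2.2.1, p031.2.2.2, hE, hO, h0, h1, h2,
          h3] <;> simp <;> done)
    | skip
  all_goals
    refine ⟨?_, ⟨d, hd, Cg.refl _, ?_, ?_⟩⟩
    rotate_left
    · simp only [hE, h0, h1]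
    · simp only [hE, h2, h3]
    set e := -(d 0 * d 1 * d 2) with hedef
    have hene : e ≠ 0 := neg_ne_zero.mpr (mul_ne_zero (mul_ne_zero (hd 0) (hd 1)) (hd 2))
    have hs : (ℓ : ℚ_[ℓ]) * e ≠ 0 := mul_ne_zero ell_ne hene
    have hve : e.valuation = (d 0).valuation + (d 1).valuation + (d 2).valuation := by
      rw [hedef, val_neg _ (mul_ne_zero (mul_ne_zero (hd 0) (hd 1)) (hd 2)),
        Padic.valuation_mul (mul_ne_zero (hd 0) (hd 1)) (hd 2), Padic.valuation_mul (hd 0) (hd 1)]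
    have key := tern_case hℓ (d 0) (d 1) (d 2) (hd 0) (hd 1) (hd 2)
      (by unfold SP; rw [Int.even_sub]; simp only [h0, h2])
      (by unfold SP; rw [Int.even_sub]; simp only [h1, h2]) _ hs
    refine ⟨![(ℓ : ℚ_[ℓ]) * e, e, -((ℓ : ℚ_[ℓ]) * e), d 3], ?_, ?_, ?_, ?_⟩
    · intro i
      fin_cases i
      · exact hs
      · exact hene
      · exact neg_ne_zero.mpr hs
      · exact hd 3
    · have s1 : Cg (diagonal d)
          (fromBlocks (diagonal ![d 0, d 1, d 2]) 0 0 (diagonal ![d 3])) := by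
        refine Cg.of_reindex (finSumFinEquiv (m := 3) (n := 1)) ?_
        rw [submatrix_diagonal_equiv, fromBlocks_diagonal]
        congr 1
        funext i
        rcases i with i | i <;> fin_cases i <;> rfl
      refine (s1.trans (key.blocks (Cg.refl _))).trans ?_
      refine Cg.of_reindex (finSumFinEquiv (m := 3) (n := 1)).symm ?_
      rw [fromBlocks_diagonal, submatrix_diagonal_equiv]
      congr 1
      funext i
      fin_cases i <;> rfl
    · show Odd ((ℓ : ℚ_[ℓ]) * e * e).valuation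
      rw [mul_assoc, val_ell_mul (mul_ne_zero hene hene), Padic.valuation_mul hene hene]
      exact odd_one.add_even ⟨_, rfl⟩
    · show Odd (-((ℓ : ℚ_[ℓ]) * e) * d 3).valuation
      rw [Padic.valuation_mul (neg_ne_zero.mpr hs) (hd 3), val_neg _ hs, val_ell_mul hene, hve]
      have : 1 + ((d 0).valuation + (d 1).valuation + (d 2).valuation) + (d 3).valuation
        = 1 + ((d 0).valuation + (d 1).valuation + (d 2).valuation + (d 3).valuation) := by ring
      rw [this]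
      exact odd_one.add_even he

theorem hy_det_sq {F : Type} [Field F] (n : Type) [Fintype n] [DecidableEq n] :
    (Hy F n).det ^ 2 = 1 := by
  rw [pow_two, ← det_mul]
  have : Hy F n * Hy F n = 1 := by
    rw [Hy, fromBlocks_multiply]; simp
  rw [this, det_one]

theorem s_we : Pool.Agent.Y142.ZD.S_WE := by
  intro ℓ _ hℓ m N hN B hB hd hev
  obtain ⟨d, hd', h⟩ := witt_sym hℓ 4 (by norm_num) m (Fin N) (by simp [hN]) B hB hd
  obtain ⟨u, hu, hdet⟩ := h.det
  rw [det_fromBlocks_zero₁₂, det_diagonal] at hdet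
  have hHy := hy_det_sq (F := ℚ_[ℓ]) (Fin m)
  have hHne : (Hy ℚ_[ℓ] (Fin m)).det ≠ 0 := by
    intro h0; rw [h0] at hHy; simp at hHy
  have hHv : (Hy ℚ_[ℓ] (Fin m)).det.valuation = 0 := by
    have := congrArg Padic.valuation hHy
    rw [Padic.valuation_pow, Padic.valuation_one] at this
    simpa using this
  have hv := congrArg Padic.valuation hdet
  rw [Fin.prod_univ_four, Padic.valuation_mul hHne
    (mul_ne_zero (mul_ne_zero (mul_ne_zero (hd' 0) (hd' 1)) (hd' 2)) (hd' 3)),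
    Padic.valuation_mul (mul_ne_zero (mul_ne_zero (hd' 0) (hd' 1)) (hd' 2)) (hd' 3),
    Padic.valuation_mul (mul_ne_zero (hd' 0) (hd' 1)) (hd' 2),
    Padic.valuation_mul (hd' 0) (hd' 1), hHv, Padic.valuation_mul (pow_ne_zero 2 hu) hd,
    Padic.valuation_pow, zero_add] at hv
  have he : Even ((d 0).valuation + (d 1).valuation + (d 2).valuation + (d 3).valuation) := by
    rw [hv]
    refine Even.add ?_ hev
    push_cast
    exact even_two_mul _
  obtain ⟨⟨d₁, hd₁, h₁, o1, o2⟩, ⟨d₂, hd₂, h₂, e1, e2⟩⟩ := quad_form hℓ d hd' he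
  constructor
  · obtain ⟨C, D, a1, a2, a3⟩ := h.trans ((Cg.refl _).blocks h₁)
    exact ⟨C, D, d₁, a1, a2, hd₁, o1, o2, a3⟩
  · obtain ⟨C, D, a1, a2, a3⟩ := h.trans ((Cg.refl _).blocks h₂)
    exact ⟨C, D, d₂, a1, a2, hd₂, e1, e2, a3⟩

end Pool.Agent.R499.OP
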