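import Pool.Agent.R499.OP.Cg

set_option autoImplicit false

/-!
Quadratic forms over `ℚ_ℓ`, `ℓ` odd: forms of dimension at least five are isotropic, Witt
decomposition (helper file for project OP of helper932, helper499).
-/

open Matrix Polynomial

namespace Pool.Agent.R499.OP

variable {ℓ : ℕ} [Fact ℓ.Prime]

theorem int_hensel (hℓ : ℓ ≠ 2) (a b c x₀ y : ℤ_[ℓ]) (ha : ‖a‖ = 1) (hx : ‖x₀‖ = 1)
    (h : ‖a * x₀ ^ 2 + b * y ^ 2 - c‖ < 1) : ∃ x : ℤ_[ℓ], a * x ^ 2 + b * y ^ 2 = c := by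
  have h2 : ‖(2 : ℤ_[ℓ])‖ = 1 := by
    have : ¬ ‖((2 : ℕ) : ℤ_[ℓ])‖ < 1 := by
      rw [PadicInt.norm_natCast_lt_one_iff]
      intro hd
      exact hℓ ((Nat.prime_dvd_prime_iff_eq Fact.out Nat.prime_two).mp hd)
    have h3 := PadicInt.norm_le_one (2 : ℤ_[ℓ])
    push_cast at this
    linarith [lt_or_eq_of_le h3, not_lt.mp this]
  obtain ⟨e, he⟩ : ∃ e, e = b * y ^ 2 - c := ⟨_, rfl⟩
  set f : ℤ_[ℓ][X] := C a * X ^ 2 + C e with hf
  have e1 : f.aeval x₀ = a * x₀ ^ 2 + b * y ^ 2 - c := by simp [hf]; rw [he]; ring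
  have e2 : f.derivative.aeval x₀ = a * (2 * x₀) := by simp [hf]; left; norm_num
  have hn : ‖f.aeval x₀‖ < ‖f.derivative.aeval x₀‖ ^ 2 := by
    rw [e1, e2, norm_mul, norm_mul, ha, h2, hx]
    simpa using h
  obtain ⟨z, hz, -⟩ := hensels_lemma hn
  refine ⟨z, ?_⟩
  have : f.aeval z = a * z ^ 2 + b * y ^ 2 - c := by simp [hf]; rw [he]; ring
  rw [this] at hz
  exact sub_eq_zero.mp hz

theorem toZMod_zero_iff (x : ℤ_[ℓ]) : PadicInt.toZMod x = 0 ↔ ‖x‖ < 1 := by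
  rw [← RingHom.mem_ker, PadicInt.ker_toZMod, IsLocalRing.mem_maximalIdeal,
    PadicInt.mem_nonunits]

theorem int_binary (hℓ : ℓ ≠ 2) (a b c : ℤ_[ℓ]) (ha : ‖a‖ = 1) (hb : ‖b‖ = 1) (hc : ‖c‖ = 1) :
    ∃ x y : ℤ_[ℓ], a * x ^ 2 + b * y ^ 2 = c := by
  have hne : ∀ z : ℤ_[ℓ], ‖z‖ = 1 → PadicInt.toZMod z ≠ 0 := fun z hz h0 => by
    have := (toZMod_zero_iff z).mp h0
    linarith
  have hunit : ∀ z : ℤ_[ℓ], PadicInt.toZMod z ≠ 0 → ‖z‖ = 1 := fun z hz => by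
    by_contra hcon
    exact hz ((toZMod_zero_iff z).mpr (lt_of_le_of_ne (PadicInt.norm_le_one z) hcon))
  obtain ⟨x₁, y₁, hxy⟩ := FiniteField.exists_root_sum_quadratic
    (f := (C (PadicInt.toZMod a) * X ^ 2 : (ZMod ℓ)[X]))
    (g := (C (PadicInt.toZMod b) * X ^ 2 + C (-(PadicInt.toZMod c)) : (ZMod ℓ)[X]))
    (by rw [degree_C_mul (hne a ha), degree_X_pow]; rfl)
    (by
      have := degree_quadratic (b := (0 : ZMod ℓ)) (c := -(PadicInt.toZMod c)) (hne b hb)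
      simpa using this)
    (by
      rw [ZMod.card]
      exact Nat.odd_iff.mp ((Fact.out : ℓ.Prime).odd_of_ne_two hℓ))
  simp only [eval_mul, eval_C, eval_pow, eval_X, eval_add] at hxy
  obtain ⟨x₀, hx₀⟩ := ZMod.ringHom_surjective (PadicInt.toZMod (p := ℓ)) x₁
  obtain ⟨y₀, hy₀⟩ := ZMod.ringHom_surjective (PadicInt.toZMod (p := ℓ)) y₁
  have hsm : ‖a * x₀ ^ 2 + b * y₀ ^ 2 - c‖ < 1 := by
    rw [← toZMod_zero_iff]
    simp only [map_sub, map_add, map_mul, map_pow, hx₀, hy₀]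
    linear_combination hxy
  by_cases hx : x₁ = 0
  · have hy : y₁ ≠ 0 := by
      rintro rfl
      rw [hx] at hxy
      have := hne c hc
      apply this
      linear_combination -hxy
    obtain ⟨y, hy'⟩ := int_hensel hℓ b a c y₀ x₀ hb (hunit _ (by rw [hy₀]; exact hy))
      (by rwa [add_comm (b * y₀ ^ 2)])
    exact ⟨x₀, y, by rw [add_comm]; exact hy'⟩
  · obtain ⟨x, hx'⟩ := int_hensel hℓ a b c x₀ y₀ ha (hunit _ (by rw [hx₀]; exact hx)) hsm
    exact ⟨x, y₀, hx'⟩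

theorem ell_ne : (ℓ : ℚ_[ℓ]) ≠ 0 := by
  exact_mod_cast (Fact.out : ℓ.Prime).ne_zero

theorem unit_part (a : ℚ_[ℓ]) (ha : a ≠ 0) : ∃ u : ℤ_[ℓ], ‖u‖ = 1 ∧
    a = (ℓ : ℚ_[ℓ]) ^ a.valuation * u := by
  have hn : ‖a * (ℓ : ℚ_[ℓ]) ^ (-a.valuation)‖ = 1 := by
    rw [norm_mul, norm_zpow, Padic.norm_p, Padic.norm_eq_zpow_neg_valuation ha, ← _root_.zpow_neg_one,
      ← _root_.zpow_mul, ← zpow_add₀]
    · simp
    · exact_mod_cast (Fact.out : ℓ.Prime).ne_zero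
  refine ⟨⟨a * (ℓ : ℚ_[ℓ]) ^ (-a.valuation), hn.le⟩, hn, ?_⟩
  show a = (ℓ : ℚ_[ℓ]) ^ a.valuation * (a * (ℓ : ℚ_[ℓ]) ^ (-a.valuation))
  rw [mul_comm, mul_assoc, ← zpow_add₀ ell_ne]
  simp

/-- equality of the parities of the valuations -/
def SP (a b : ℚ_[ℓ]) : Prop := Even (a.valuation - b.valuation)

theorem pad_binary (hℓ : ℓ ≠ 2) (a b c : ℚ_[ℓ]) (ha : a ≠ 0) (hb : b ≠ 0) (hc : c ≠ 0)
    (h1 : SP a c) (h2 : SP b c) : ∃ x y : ℚ_[ℓ], a * x ^ 2 + b * y ^ 2 = c := by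
  obtain ⟨u, hu, hau⟩ := unit_part a ha
  obtain ⟨v, hv, hbv⟩ := unit_part b hb
  obtain ⟨w, hw, hcw⟩ := unit_part c hc
  obtain ⟨i, hi⟩ := h1
  obtain ⟨j, hj⟩ := h2
  obtain ⟨x, y, hxy⟩ := int_binary hℓ u v w hu hv hw
  refine ⟨(ℓ : ℚ_[ℓ]) ^ (-i) * x, (ℓ : ℚ_[ℓ]) ^ (-j) * y, ?_⟩
  have e1 : a * ((ℓ : ℚ_[ℓ]) ^ (-i) * x) ^ 2 = (ℓ : ℚ_[ℓ]) ^ c.valuation * (u * x ^ 2) := by
    have : (ℓ : ℚ_[ℓ]) ^ c.valuation = (ℓ : ℚ_[ℓ]) ^ a.valuation * ((ℓ : ℚ_[ℓ]) ^ (-i)) ^ 2 := by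
      rw [← zpow_natCast, ← _root_.zpow_mul, ← zpow_add₀ ell_ne]
      congr 1; push_cast; linarith
    rw [this]
    nth_rewrite 1 [hau]
    ring
  have e2 : b * ((ℓ : ℚ_[ℓ]) ^ (-j) * y) ^ 2 = (ℓ : ℚ_[ℓ]) ^ c.valuation * (v * y ^ 2) := by
    have : (ℓ : ℚ_[ℓ]) ^ c.valuation = (ℓ : ℚ_[ℓ]) ^ b.valuation * ((ℓ : ℚ_[ℓ]) ^ (-j)) ^ 2 := by
      rw [← zpow_natCast, ← _root_.zpow_mul, ← zpow_add₀ ell_ne]
      congr 1; push_cast; linarith
    rw [this]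
    nth_rewrite 1 [hbv]
    ring
  rw [e1, e2, ← mul_add]
  nth_rewrite 2 [hcw]
  congr 1
  exact_mod_cast congrArg (fun z : ℤ_[ℓ] => (z : ℚ_[ℓ])) hxy

theorem two_ne : (2 : ℚ_[ℓ]) ≠ 0 := two_ne_zero

theorem val_neg (a : ℚ_[ℓ]) (ha : a ≠ 0) : (-a).valuation = a.valuation := by
  have h1 : (-1 : ℚ_[ℓ]).valuation = 0 := by
    have := Padic.valuation_intCast (p := ℓ) (-1)
    simpa [padicValInt] using this
  rw [← neg_one_mul, Padic.valuation_mul (by simp) ha, h1, zero_add]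

/-- a ternary form whose entries have the same parity -/
theorem Cg.tern (hℓ : ℓ ≠ 2) (a b c : ℚ_[ℓ]) (ha : a ≠ 0) (hb : b ≠ 0) (hc : c ≠ 0)
    (h1 : SP a c) (h2 : SP b c) :
    Cg (diagonal ![a, b, c]) (fromBlocks (Hy ℚ_[ℓ] (Fin 1)) 0 0 (diagonal ![-(a * b * c)])) := by
  have hc' : -c ≠ 0 := neg_ne_zero.mpr hc
  obtain ⟨x, y, hxy⟩ := pad_binary hℓ a b (-c) ha hb hc'
    (by unfold SP; rw [val_neg c hc]; exact h1) (by unfold SP; rw [val_neg c hc]; exact h2)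
  have hbin := Cg.binary hc' hxy
  have s1 : Cg (diagonal ![a, b, c]) (fromBlocks (diagonal ![a, b]) 0 0 (diagonal ![c])) := by
    refine Cg.of_reindex (finSumFinEquiv (m := 2) (n := 1)) ?_
    ext (i | i) (j | j) <;> fin_cases i <;> fin_cases j <;> rfl
  have s2 : Cg (fromBlocks (diagonal ![-c, a * b * -c]) 0 0 (diagonal ![c]))
      (fromBlocks (diagonal ![c, -c]) 0 0 (diagonal ![-(a * b * c)])) := by
    rw [fromBlocks_diagonal, fromBlocks_diagonal]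
    refine Cg.of_reindex (Equiv.ofBijective (Sum.elim ![Sum.inr 0, Sum.inl 0] ![Sum.inl 1] :
      Fin 2 ⊕ Fin 1 → Fin 2 ⊕ Fin 1) ?_) ?_
    · rw [Fintype.bijective_iff_injective_and_card]
      refine ⟨?_, rfl⟩
      decide
    · rw [submatrix_diagonal_equiv]
      congr 1
      funext i
      rcases i with i | i <;> fin_cases i <;> simp
  refine (s1.trans (hbin.blocks (Cg.refl _))).trans (s2.trans ?_)
  exact (Cg.plane two_ne c hc).blocks (Cg.refl _)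

/-- Witt decomposition -/
theorem witt (hℓ : ℓ ≠ 2) (r : ℕ) (hr : 3 ≤ r) (m : ℕ) : ∀ (n : Type) [Fintype n] [DecidableEq n]
    (d : n → ℚ_[ℓ]), Fintype.card n = 2 * m + r → (∀ i, d i ≠ 0) →
    ∃ d' : Fin r → ℚ_[ℓ], (∀ i, d' i ≠ 0) ∧
      Cg (diagonal d) (fromBlocks (Hy ℚ_[ℓ] (Fin m)) 0 0 (diagonal d')) := by
  induction m with
  | zero =>
    intro n _ _ d hn hd
    let e : Fin r ≃ n := Fintype.equivOfCardEq (by simp [hn])
    refine ⟨d ∘ e, fun i => hd _, ?_⟩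
    refine (Cg.of_reindex e (submatrix_diagonal_equiv d e)).trans ?_
    exact Cg.hy_empty _
  | succ m ih =>
    intro n _ _ d hn hd
    -- three entries with the same parity
    have h3 : ∃ f : Fin 3 → n, Function.Injective f ∧ ∀ i j, SP (d (f i)) (d (f j)) := by
      classical
      let g : n → Bool := fun i => decide (Even (d i).valuation)
      obtain ⟨b, hb⟩ := Fintype.exists_lt_card_fiber_of_mul_lt_card (n := 2) g (by
        rw [Fintype.card_bool, hn]; omega)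
      obtain ⟨s, hs, hs3⟩ := Finset.exists_subset_card_eq (n := 3) (Nat.succ_le_of_lt hb)
      let e := s.equivFinOfCardEq hs3
      refine ⟨fun i => (e.symm i : n), ?_, ?_⟩
      · intro i j hij
        exact e.symm.injective (Subtype.ext hij)
      · intro i j
        have h1 := (Finset.mem_filter.mp (hs (e.symm i).2)).2
        have h2 := (Finset.mem_filter.mp (hs (e.symm j).2)).2
        unfold SP
        rw [Int.even_sub]
        have h12 : g (e.symm i) = g (e.symm j) := h1.trans h2.symm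
        simpa [g] using h12
    obtain ⟨f, hf, hSP⟩ := h3
    classical
    let κ : Type := {i // i ∉ Set.range f}
    let e : Fin 3 ⊕ κ ≃ n :=
      ((Equiv.ofInjective f hf).sumCongr (Equiv.refl κ)).trans (Equiv.Set.sumCompl (Set.range f))
    have hcard : Fintype.card κ + 3 = Fintype.card n := by
      have := Fintype.card_congr e
      rw [Fintype.card_sum, Fintype.card_fin] at this
      omega
    let dκ : κ → ℚ_[ℓ] := fun i => d i
    have s1 : Cg (diagonal d) (fromBlocks (diagonal (d ∘ f)) 0 0 (diagonal dκ)) := by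
      refine Cg.of_reindex e ?_
      rw [submatrix_diagonal_equiv, fromBlocks_diagonal]
      congr 1
      funext i
      rcases i with i | i <;> rfl
    have s2 : Cg (diagonal (d ∘ f)) (fromBlocks (Hy ℚ_[ℓ] (Fin 1)) 0 0
        (diagonal ![-(d (f 0) * d (f 1) * d (f 2))])) := by
      have : d ∘ f = ![d (f 0), d (f 1), d (f 2)] := by
        funext i; fin_cases i <;> rfl
      rw [this]
      exact Cg.tern hℓ _ _ _ (hd _) (hd _) (hd _) (hSP 0 2) (hSP 1 2)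
    have s3 := (s1.trans (s2.blocks (Cg.refl _))).trans (Cg.assoc _ _ _)
    rw [fromBlocks_diagonal] at s3
    obtain ⟨d', hd', s4⟩ := ih (Fin 1 ⊕ κ) (Sum.elim ![-(d (f 0) * d (f 1) * d (f 2))] dκ)
      (by rw [Fintype.card_sum, Fintype.card_fin]; omega)
      (by
        rintro (i | i)
        · fin_cases i
          simpa using ⟨⟨hd (f 0), hd (f 1)⟩, hd (f 2)⟩
        · exact hd _)
    refine ⟨d', hd', ?_⟩
    refine (s3.trans ((Cg.refl _).blocks s4)).trans ?_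
    refine (Cg.assoc _ _ _).symm.trans ?_
    refine Cg.blocks ?_ (Cg.refl _)
    refine Cg.hy_sum.trans (Cg.hy_reindex ?_)
    exact (finCongr (by omega : m + 1 = 1 + m)).trans finSumFinEquiv.symm

/-- Witt decomposition of a nondegenerate symmetric matrix -/
theorem witt_sym (hℓ : ℓ ≠ 2) (r : ℕ) (hr : 3 ≤ r) (m : ℕ) (n : Type) [Fintype n] [DecidableEq n]
    (hn : Fintype.card n = 2 * m + r) (B : Matrix n n ℚ_[ℓ]) (hB : Bᵀ = B) (hd : B.det ≠ 0) :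
    ∃ d' : Fin r → ℚ_[ℓ], (∀ i, d' i ≠ 0) ∧
      Cg B (fromBlocks (Hy ℚ_[ℓ] (Fin m)) 0 0 (diagonal d')) := by
  obtain ⟨d, h⟩ := Cg.diagonalize two_ne B hB
  obtain ⟨u, hu, hdet⟩ := h.det
  have hne : ∀ i, d i ≠ 0 := by
    intro i hi
    rw [det_diagonal, Finset.prod_eq_zero (Finset.mem_univ i) hi] at hdet
    have : u ^ 2 * B.det ≠ 0 := mul_ne_zero (pow_ne_zero 2 hu) hd
    exact this hdet.symm
  obtain ⟨d', hd', h'⟩ := witt hℓ r hr m n d hn hne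
  exact ⟨d', hd', h.trans h'⟩

end Pool.Agent.R499.OP
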